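import Pool.Agent.H2.ST.Targets

/-!
NIL: a derivation that is nilpotent on generators is locally nilpotent
-/

set_option autoImplicit false

open Pool.Agent.H2.ST MvPolynomial

namespace Pool.Agent.H36.ST2

theorem nil_le {R : Type} [CommRing R] (D : R → R) (h0 : D 0 = 0) {a : R} {p m : ℕ}
    (h : D^[p] a = 0) (hm : p ≤ m) : D^[m] a = 0 := by
  obtain ⟨j, rfl⟩ := Nat.exists_eq_add_of_le hm
  rw [add_comm, Function.iterate_add_apply, h]
  exact Function.iterate_fixed h0 j

theorem nil_mul {k R : Type} [Field k] [CommRing R] [Algebra k R] (D : Derivation k R R) :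
    ∀ (N p q : ℕ), p + q = N → ∀ a b : R, D^[p] a = 0 → D^[q] b = 0 → D^[N] (a * b) = 0 := by
  intro N
  induction N with
  | zero =>
    intro p q hN a b ha hb
    obtain rfl : p = 0 := by omega
    have ha' : a = 0 := ha
    rw [ha', zero_mul]
    rfl
  | succ N ih =>
    intro p q hN a b ha hb
    have h0 : D 0 = 0 := map_zero D
    rcases p with _ | p
    · have ha' : a = 0 := ha
      rw [ha', zero_mul]
      exact Function.iterate_fixed h0 _
    · rcases q with _ | q
      · have hb' : b = 0 := hb
        rw [hb', mul_zero]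
        exact Function.iterate_fixed h0 _
      · rw [Function.iterate_succ_apply, Derivation.leibniz, smul_eq_mul, smul_eq_mul,
          iterate_map_add, ih (p + 1) q (by omega) a (D b) ha
            (by rw [← Function.iterate_succ_apply]; exact hb),
          ih (q + 1) p (by omega) b (D a) hb
            (by rw [← Function.iterate_succ_apply]; exact ha), add_zero]

theorem pf_NIL : T_NIL := by
  intro k R _ _ _ D S hS f hf
  have h0 : D 0 = 0 := map_zero D
  induction hf using Algebra.adjoin_induction with
  | mem x hx => exact hS x hx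
  | algebraMap r => exact ⟨1, by rw [Function.iterate_one]; exact D.map_algebraMap r⟩
  | add x y _ _ hx hy =>
    obtain ⟨p, hp⟩ := hx
    obtain ⟨q, hq⟩ := hy
    refine ⟨max p q, ?_⟩
    rw [iterate_map_add, nil_le D h0 hp (le_max_left _ _), nil_le D h0 hq (le_max_right _ _),
      add_zero]
  | mul x y _ _ hx hy =>
    obtain ⟨p, hp⟩ := hx
    obtain ⟨q, hq⟩ := hy
    exact ⟨p + q, nil_mul D (p + q) p q rfl x y hp hq⟩

end Pool.Agent.H36.ST2
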